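import Mathlib
import Pool.Agent.N163.KG.TopD
import Pool.Agent.N163.KG.Fin2
import Pool.Agent.N163.KN.HOM
import Pool.Agent.N163.KN.ADD
import Pool.Agent.N163.KN.DER
import Pool.Agent.N163.KN.TAU
import Pool.Agent.N163.KN.COMB
import Pool.Agent.N163.KG.OM
import Pool.Agent.N163.KG.DER
import Pool.Agent.N163.KG.CARB
import Pool.Agent.N163.KG.COEF
import Pool.Agent.N163.KG.KER
import Pool.Agent.N163.KG.INT
import Pool.Agent.N163.KG.CUBE
import Pool.Agent.N163.KG.NZ
import Pool.Agent.N163.KG.SEMI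
import Pool.Agent.N163.KG.ALG
import Pool.Agent.N163.KG.QUAD
import Pool.Agent.N163.KG.DESC
import Pool.Agent.N163.KG.HFIN
import Pool.Agent.N163.KG.HPAR
import Pool.Agent.N163.KG.HDBL
import Pool.Agent.N163.KG.THREE
import Pool.Agent.N163.KG.LAT
import Pool.Agent.N163.KG.OMD
import Pool.Agent.N163.KG.MAIN
import Pool.Agent.N163.KG.FG
import Pool.Agent.N163.KG.WRO
import Pool.Agent.N163.KG.PT
import Pool.Agent.N163.KG.E2
import Pool.Agent.N163.KG.E3
import Pool.Agent.N163.KG.E6
import Pool.Agent.N163.KG.E12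
import Pool.Agent.N163.KG.E30
import Pool.Agent.N163.KG.CMP
import Pool.Agent.N163.KG.F2
import Pool.Agent.N163.KG.F3
import Pool.Agent.N163.KG.F6
import Pool.Agent.N163.KG.F12
import Pool.Agent.N163.KG.F30
import Pool.Agent.N163.KG.ORD
import Pool.Agent.N163.KG.CONV

set_option autoImplicit false

/-!
# `MP_3da457_ag`: complete answer to Q1

For an admissible triple `(q, b, c)` the group `MW (K_{6n})` has positive rank if and only if `5`
divides `n`, `q` is not `1` modulo `5` and `b / 10` is a cube in `F_q`; in all other cases it is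
`ℤ / 3`.  So some `MW (K_{6n})` has positive rank if and only if `q` is not `1` modulo `5` and
`b / 10` is a cube.

* If the condition holds then the sections for `n = 5` are explicit (`Pool.Agent.N420.KS`); the
  substitution `t ↦ t ^ m` gives the multiples of `5`.
* If it fails, put `a = (t ^ (6n) - c) / (2 b ^ 2)`, so that the surface is `y ^ 2 = x ^ 3 + a ^ 2`
  over `k(t)`, `k = F_q`, of characteristic `p = 6 l + 1`.

1. The logarithmic derivative `(x, y) ↦ (3 a x' - 2 a' x) / y` (`Pool.Agent.N163.KN.dd`) is a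
  homomorphism from the group to the polynomials of degree at most `4 n - 2` whose kernel is the
  image of the Frobenius; it satisfies an equation of Cartier, which relates the coefficients of
  `t ^ (u - 1)` and `t ^ (v - 1)` for `v = p u` modulo `6 n`.
2. By heights and a descent by `1 - ω` the group over a finite extension is finitely generated;
  a linear algebra argument over `ℤ[ζ_{6n}]` shows that the set of exponents `u` which occur is
  stable under the multiplications by `t = 1` modulo `3` prime to `6 n`: so `(t u) mod 6 n < 4 n`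
  for all such `t`.
3. By combinatorics (`Pool.Agent.N163.KN.S_COMB`) `u / (6 n)` is one of `1/2`, `1/3`, `1/6`,
  `1/12`, `7/12`, `1/30`, `7/30`, `13/30`, `19/30`.
4. Each of them is excluded by a comparison with an explicit section over an extension, except the
  last four if `5` divides `n`, `q` is not `1` modulo `5` and `b / 10` is a cube.

The leaves of the proof are by the helpers named in `departures/helper163.md`.
-/

namespace Pool.Agent.Results.MP_3da457_ag.CompleteAnswer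

open Pool.Agent.N163 Pool.Agent.N420.KS

instance fact7 : Fact (Nat.Prime 7) := ⟨by norm_num⟩

lemma example_pos : Admissible (ZMod 7) 3 6 := by
  refine ⟨?_, ?_, ?_, ?_, ?_, ?_, ?_⟩
  · rw [ZMod.ringChar_zmod_n]
    norm_num
  · decide
  · decide
  · rw [ZMod.ringChar_zmod_n, Nat.card_eq_fintype_card, Nat.card_eq_fintype_card]
    decide +kernel
  · decide
  · decide
  · decide

lemma example_neg : Admissible (ZMod 7) 2 6 := by
  refine ⟨?_, ?_, ?_, ?_, ?_, ?_, ?_⟩
  · rw [ZMod.ringChar_zmod_n]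
    norm_num
  · decide
  · decide
  · rw [ZMod.ringChar_zmod_n, Nat.card_eq_fintype_card, Nat.card_eq_fintype_card]
    decide +kernel
  · decide
  · decide
  · decide

theorem pt : KG.S_PT := KG.PT.t_PT KG.CARB.t_CAR KG.DER.t_DER KG.COEF.t_COEF

theorem nz : KG.S_NZ := KG.NZ.t_NZ KG.KER.t_KER KG.CUBE.t_CUBE

theorem fg : KG.S_FG := KG.FG.t_FG KN.HOM.t_HOM KG.OM.t_OM KG.HFIN.t_HFIN KG.HPAR.t_HPAR
  KG.HDBL.t_HDBL KG.QUAD.t_QUAD KG.THREE.t_THREE KG.DESC.t_DESC

theorem mn : KG.S_MAIN := KG.MAIN.t_MAIN KG.SEMI.t_SEMI KG.ALG.t_ALG KG.LAT.t_LAT KG.OMD.t_OMD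

theorem f2 : KG.S_F2 := KG.F2.t_F2 (KG.E2.t_E2 KG.WRO.t_WRO pt) KG.CMP.t_CMP

theorem f3 : KG.S_F3 := KG.F3.t_F3 (KG.E3.t_E3 KG.WRO.t_WRO pt) KG.CMP.t_CMP

theorem f6 : KG.S_F6 := KG.F6.t_F6 (KG.E6.t_E6 KG.WRO.t_WRO pt) KG.CMP.t_CMP

theorem f12 : KG.S_F12 := KG.F12.t_F12 (KG.E12.t_E12 KG.WRO.t_WRO pt) KG.CMP.t_CMP

theorem f30 : KG.S_F30 := KG.F30.t_F30 (KG.E30.t_E30 KG.WRO.t_WRO pt) KG.CMP.t_CMP

open Classical in
/-- For an admissible triple `(q, b, c)` and `n ≥ 1` the rank of `MW (K_{6n})` is positive if and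
only if `5` divides `n`, `q` is not `1` modulo `5` and `b / 10` is a cube; in this case the plane
cubic has infinitely many affine points, and otherwise `MW (K_{6n})` has three elements and the
plane cubic has no affine points.  The triple `(7, 3, 6)` satisfies the condition for `n = 5`, the
triple `(7, 2, 6)` does not. -/
theorem result :
    (∀ (F : Type) [Field F] [Finite F] (b c : F), Admissible F b c → ∀ n : ℕ, 1 ≤ n →
      (0 < Module.rank ℤ (weierstrass F b c n).Point ↔
        (5 ∣ n ∧ Nat.card F % 5 ≠ 1 ∧ ∃ β : F, b = 10 * β ^ 3)) ∧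
      ((5 ∣ n ∧ Nat.card F % 5 ≠ 1 ∧ ∃ β : F, b = 10 * β ^ 3) →
        (affinePoints F b c n).Infinite) ∧
      (¬ (5 ∣ n ∧ Nat.card F % 5 ≠ 1 ∧ ∃ β : F, b = 10 * β ^ 3) →
        Nat.card (weierstrass F b c n).Point = 3 ∧ affinePoints F b c n = ∅)) ∧
    (Admissible (ZMod 7) 3 6 ∧
      (Nat.card (ZMod 7) % 5 ≠ 1 ∧ ∃ β : ZMod 7, 3 = 10 * β ^ 3)) ∧
    (Admissible (ZMod 7) 2 6 ∧
      ¬ (Nat.card (ZMod 7) % 5 ≠ 1 ∧ ∃ β : ZMod 7, 2 = 10 * β ^ 3)) := by
  refine ⟨fun F _ _ b c h n hn => ?_, ⟨example_pos, ?_, 1, by decide⟩, example_neg, ?_⟩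
  · exact KG.Fin.fin2 KG.ORD.t_ORD KG.CONV.t_CONV
      (fun k _ _ p l _ _ hl b n hb hn c hA x y hxy =>
        KG.Top.top5 KN.HOM.t_HOM KG.OM.t_OM KN.ADD.t_ADD KN.DER.t_DER KG.KER.t_KER KG.INT.t_INT
          KG.CUBE.t_CUBE KN.TAU.t_TAU pt KG.HFIN.t_HFIN nz fg mn KN.COMB.t_COMB f2 f3 f6 f12 f30
          k p l hl b n hb hn c hA x y hxy) F b c h n hn
  · rw [Nat.card_eq_fintype_card, ZMod.card]
    norm_num
  · rintro ⟨-, h⟩
    revert h
    decide

end Pool.Agent.Results.MP_3da457_ag.CompleteAnswer
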